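import Pool.Agent.helper50.BS.SpecU

/-!
# Module bs:UB2: coefficient lists
-/

set_option autoImplicit false
set_option linter.unusedVariables false
set_option linter.dupNamespace false

open scoped Classical

noncomputable section

namespace Pool.Agent.helper50.BT

open Pool.Agent.helper81.PL

theorem fm_len {α : Type} (m : ℕ) (g : ℕ → List α) (p : ℕ) (h : ∀ i < p, (g i).length = m) :
    ((List.range p).flatMap g).length = p * m := by
  induction p with
  | zero => simp
  | succ p ih =>
    rw [List.range_succ, List.flatMap_append, List.length_append, ih (fun i hi => h i (by omega)),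
      List.flatMap_singleton, h p (by omega)]
    ring

theorem fm_get {α : Type} (d : α) (m : ℕ) (g : ℕ → List α) (p : ℕ)
    (h : ∀ i < p, (g i).length = m) (i r : ℕ) (hi : i < p) (hr : r < m) :
    ((List.range p).flatMap g).getD (i * m + r) d = (g i).getD r d := by
  induction p with
  | zero => omega
  | succ p ih =>
    have hl := fm_len m g p (fun i hi => h i (by omega))
    rw [List.range_succ, List.flatMap_append, List.flatMap_singleton]
    by_cases hip : i < p
    · rw [List.getD_append _ _ _ _ (by
        rw [hl]
        calc i * m + r < i * m + m := by omega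
          _ = (i + 1) * m := by ring
          _ ≤ p * m := Nat.mul_le_mul_right m hip)]
      exact ih (fun i hi => h i (by omega)) hip
    · have hip' : i = p := by omega
      subst hip'
      rw [List.getD_append_right _ _ _ _ (by rw [hl]; omega), hl]
      congr 1
      omega

theorem UB2 : UB2_stmt := by
  intro n k l f L hL
  have h1 : ∀ a c, ((List.range (l + 1)).map (fun j => f a c j)).length = l + 1 := by
    intro a c
    rw [List.length_map, List.length_range]
  have h2 : ∀ a, ((List.range (k + 1)).flatMap (fun c =>
      (List.range (l + 1)).map (fun j => f a c j))).length = (k + 1) * (l + 1) := fun a =>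
    fm_len (l + 1) _ (k + 1) (fun c _ => h1 a c)
  refine ⟨?_, ?_, ?_⟩
  · rw [hL, fm_len ((k + 1) * (l + 1)) _ (n + 1) (fun a _ => h2 a)]
    ring
  · intro a c j ha hc hj
    unfold cfT
    have e : (a * (k + 1) + c) * (l + 1) + j = a * ((k + 1) * (l + 1)) + (c * (l + 1) + j) := by ring
    have hlt : c * (l + 1) + j < (k + 1) * (l + 1) := by
      calc c * (l + 1) + j < c * (l + 1) + (l + 1) := by omega
        _ = (c + 1) * (l + 1) := by ring
        _ ≤ (k + 1) * (l + 1) := Nat.mul_le_mul_right _ (by omega)
    rw [hL, e, fm_get 0 ((k + 1) * (l + 1)) _ (n + 1) (fun a _ => h2 a) a _ (by omega) hlt,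
      fm_get 0 (l + 1) _ (k + 1) (fun c _ => h1 a c) c j (by omega) (by omega)]
    rw [List.getD_eq_getElem _ _ (by rw [h1]; omega), List.getElem_map, List.getElem_range]
  · intro x hx
    rw [hL, List.mem_flatMap] at hx
    obtain ⟨a, ha, hx⟩ := hx
    rw [List.mem_flatMap] at hx
    obtain ⟨c, hc, hx⟩ := hx
    rw [List.mem_map] at hx
    obtain ⟨j, hj, hx⟩ := hx
    rw [List.mem_range] at ha hc hj
    exact ⟨a, c, j, by omega, by omega, by omega, hx.symm⟩

end Pool.Agent.helper50.BT
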