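import Pool.Agent.helper50.BS.SpecU

/-!
# Module bs:UB3: monomials, one, zero
-/

set_option autoImplicit false
set_option linter.unusedVariables false
set_option linter.dupNamespace false

open scoped Classical

noncomputable section

namespace Pool.Agent.helper50.BT

open Pool.Agent.helper81.PL

theorem UB3 (hUB2 : UB2_stmt) : UB3_stmt := by
  intro M n k l T hM
  have hmod : 1 % M = 1 := Nat.mod_eq_of_lt (by omega)
  have hmon : ∀ a c j : ℕ, Rp T (monT M n k l a c j) (T.x ^ a * T.y ^ c * T.u ^ j) := by
    intro a c j
    obtain ⟨h1, h2, h3⟩ := hUB2 n k l (fun a' c' j' =>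
      bif eqb a' a && eqb c' c && eqb j' j then 1 % M else 0) (monT M n k l a c j) rfl
    refine ⟨h1, ?_, ?_⟩
    · intro x hx
      obtain ⟨a', c', j', -, -, -, rfl⟩ := h3 x hx
      show (bif eqb a' a && eqb c' c && eqb j' j then 1 % M else 0) < M
      cases (eqb a' a && eqb c' c && eqb j' j)
      · show 0 < M
        omega
      · show 1 % M < M
        omega
    · intro a' c' j' ha hc hj
      rw [h2 a' c' j' ha hc hj, T.cf_mon a' c' j' a c j ha hc hj]
      unfold eqb
      by_cases h : a = a' ∧ c = c' ∧ j = j'
      · obtain ⟨rfl, rfl, rfl⟩ := h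
        rw [if_pos ⟨rfl, rfl, rfl⟩]
        simp [hmod]
      · rw [if_neg h]
        have hb : (decide (a' = a) && decide (c' = c) && decide (j' = j)) = false := by
          by_contra hcon
          rw [Bool.not_eq_false, Bool.and_eq_true, Bool.and_eq_true, decide_eq_true_eq,
            decide_eq_true_eq, decide_eq_true_eq] at hcon
          exact h ⟨hcon.1.1.symm, hcon.1.2.symm, hcon.2.symm⟩
        rw [hb]
        simp
  refine ⟨hmon, ?_, ?_⟩
  · have := hmon 0 0 0
    simp only [pow_zero, mul_one] at this
    exact this
  · refine ⟨?_, ?_, ?_⟩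
    · unfold zeroT
      rw [List.length_replicate]
    · intro x hx
      unfold zeroT at hx
      rw [List.mem_replicate] at hx
      omega
    · intro a c j _ _ _
      rw [map_zero]
      unfold cfT zeroT
      have : ∀ m i : ℕ, (List.replicate m 0).getD i 0 = 0 := by
        intro m i
        rw [List.getD_eq_getElem?_getD, List.getElem?_replicate]
        split_ifs <;> rfl
      rw [this]
      simp

end Pool.Agent.helper50.BT
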