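import Pool.Agent.helper73.BS.Spec

set_option autoImplicit false

namespace Pool.Agent.BS

open Matrix Module Pool.Agent.UG

/-- the matrix of polynomials with the columns `b_i u` -/
noncomputable def GI_M {n r : ℕ} (B : Fin r → MQ n) : Matrix (Fin n) (Fin r) (MvPolynomial (Fin n) ℚ) :=
  fun k i => ∑ j, MvPolynomial.C (B i k j) * MvPolynomial.X j

/-- the matrix with the columns `b_i u` -/
def GI_N {n r : ℕ} (B : Fin r → MQ n) (u : VQ n) : Matrix (Fin n) (Fin r) ℚ :=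
  fun k i => (B i *ᵥ u) k

theorem GI_M_eval {n r : ℕ} (B : Fin r → MQ n) (u : VQ n) :
    (GI_M B).map (MvPolynomial.eval u) = GI_N B u := by
  funext k i
  simp [GI_M, GI_N, Matrix.map_apply, Matrix.mulVec, dotProduct]

theorem GI_det_eval {n r : ℕ} (B : Fin r → MQ n) (u : VQ n) :
    MvPolynomial.eval u ((GI_M B)ᵀ * GI_M B).det = ((GI_N B u)ᵀ * GI_N B u).det := by
  rw [RingHom.map_det]
  congr 1
  rw [RingHom.mapMatrix_apply, Matrix.map_mul, Matrix.transpose_map, GI_M_eval]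

theorem GI_mul {n r : ℕ} (B : Fin r → MQ n) (u : VQ n) (v : Fin r → ℚ) :
    GI_N B u *ᵥ v = (∑ i, v i • B i) *ᵥ u := by
  funext k
  simp only [GI_N, Matrix.mulVec, dotProduct, Matrix.sum_apply, Matrix.smul_apply, smul_eq_mul,
    Finset.sum_mul]
  rw [Finset.sum_comm]
  refine Finset.sum_congr rfl fun j _ => Finset.sum_congr rfl fun i _ => ?_
  ring

theorem GI : GI_stmt := by
  intro n 𝔢 ⟨u₀, hu₀⟩
  have b := Module.finBasis ℚ 𝔢
  set r := finrank ℚ 𝔢
  let B : Fin r → MQ n := fun i => (b i : MQ n)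
  refine ⟨((GI_M B)ᵀ * GI_M B).det, ?_, ?_⟩
  · intro h0
    have h1 : MvPolynomial.eval u₀ ((GI_M B)ᵀ * GI_M B).det = 0 := by rw [h0, map_zero]
    rw [GI_det_eval] at h1
    obtain ⟨v, hv, hv0⟩ := Matrix.exists_mulVec_eq_zero_iff.mpr h1
    apply hv
    have h2 : GI_N B u₀ *ᵥ v = 0 := by
      rw [← Matrix.mulVec_mulVec] at hv0
      have h3 : (GI_N B u₀ *ᵥ v) ⬝ᵥ (GI_N B u₀ *ᵥ v) = 0 := by
        have h4 : v ⬝ᵥ ((GI_N B u₀)ᵀ *ᵥ (GI_N B u₀ *ᵥ v)) = 0 := by rw [hv0, dotProduct_zero]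
        rw [Matrix.dotProduct_mulVec, Matrix.vecMul_transpose] at h4
        exact h4
      exact dotProduct_self_eq_zero.mp h3
    rw [GI_mul] at h2
    have h3 : (∑ i, v i • B i) = 0 := by
      refine hu₀ _ ?_ h2
      exact Submodule.sum_mem _ fun i _ => Submodule.smul_mem _ _ (b i).2
    have h4 : (∑ i, v i • b i) = 0 := by
      apply Subtype.ext
      rw [Submodule.coe_sum]
      simpa [B] using h3
    have h5 := linearIndependent_iff'.mp b.linearIndependent Finset.univ v h4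
    funext i
    exact h5 i (Finset.mem_univ i)
  · intro u hu X hX hXu
    rw [GI_det_eval] at hu
    set c : Fin r → ℚ := fun i => b.repr ⟨X, hX⟩ i with hc
    have h1 : X = ∑ i, c i • B i := by
      have h2 := b.sum_repr ⟨X, hX⟩
      have h3 : ((∑ i, (b.repr ⟨X, hX⟩) i • b i : 𝔢) : MQ n) = X := congrArg (Subtype.val) h2
      rw [Submodule.coe_sum] at h3
      refine h3.symm.trans ?_
      simp [B, hc]
    have h2 : GI_N B u *ᵥ c = 0 := by
      rw [GI_mul, ← h1]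
      exact hXu
    have h3 : ((GI_N B u)ᵀ * GI_N B u) *ᵥ c = 0 := by
      rw [← Matrix.mulVec_mulVec, h2, Matrix.mulVec_zero]
    have h4 : c = 0 := Matrix.eq_zero_of_mulVec_eq_zero hu h3
    rw [h1, h4]
    simp

end Pool.Agent.BS
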