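import Pool.Agent.helper50.BS.SpecU

/-!
# Module bs:UB4: sums and differences
-/

set_option autoImplicit false
set_option linter.unusedVariables false
set_option linter.dupNamespace false

open scoped Classical

noncomputable section

namespace Pool.Agent.helper50.BT

open Pool.Agent.helper81.PL

theorem UB4_idx {n k l a c j : ℕ} (ha : a ≤ n) (hc : c ≤ k) (hj : j ≤ l) :
    (a * (k + 1) + c) * (l + 1) + j < (n + 1) * (k + 1) * (l + 1) := by
  calc (a * (k + 1) + c) * (l + 1) + j < (a * (k + 1) + c) * (l + 1) + (l + 1) := by omega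
    _ = (a * (k + 1) + c + 1) * (l + 1) := by ring
    _ ≤ (a * (k + 1) + (k + 1)) * (l + 1) := Nat.mul_le_mul_right _ (by omega)
    _ = (a + 1) * (k + 1) * (l + 1) := by ring
    _ ≤ (n + 1) * (k + 1) * (l + 1) :=
      Nat.mul_le_mul_right _ (Nat.mul_le_mul_right _ (by omega))

theorem UB4_zip (f : ℕ → ℕ → ℕ) (A B : List ℕ) (i : ℕ) (hA : i < A.length) (hB : i < B.length) :
    (List.zipWith f A B).getD i 0 = f (A.getD i 0) (B.getD i 0) := by
  rw [List.getD_eq_getElem _ _ (by rw [List.length_zipWith]; omega), List.getD_eq_getElem _ _ hA,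
    List.getD_eq_getElem _ _ hB, List.getElem_zipWith]

theorem UB4_mem (f : ℕ → ℕ → ℕ) (A B : List ℕ) (M : ℕ) (h : ∀ p ∈ A, ∀ q ∈ B, f p q < M) :
    ∀ x ∈ List.zipWith f A B, x < M := by
  intro x hx
  obtain ⟨i, hi, rfl⟩ := List.mem_iff_getElem.1 hx
  rw [List.getElem_zipWith]
  exact h _ (List.getElem_mem _) _ (List.getElem_mem _)

theorem UB4 : UB4_stmt := by
  intro M n k l T A B r r' hM hA hB
  obtain ⟨a1, a2, a3⟩ := hA
  obtain ⟨b1, b2, b3⟩ := hB
  constructor
  · refine ⟨?_, ?_, ?_⟩
    · unfold addT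
      rw [List.length_zipWith, a1, b1, min_self]
    · exact UB4_mem _ A B M (fun p _ q _ => Nat.mod_lt _ (by omega))
    · intro a c j ha hc hj
      have hidx := UB4_idx ha hc hj
      rw [map_add, ← a3 a c j ha hc hj, ← b3 a c j ha hc hj]
      unfold cfT addT
      rw [UB4_zip _ A B _ (by rw [a1]; exact hidx) (by rw [b1]; exact hidx), ZMod.natCast_mod]
      push_cast
      rfl
  · refine ⟨?_, ?_, ?_⟩
    · unfold subT
      rw [List.length_zipWith, a1, b1, min_self]
    · exact UB4_mem _ A B M (fun p _ q _ => Nat.mod_lt _ (by omega))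
    · intro a c j ha hc hj
      have hidx := UB4_idx ha hc hj
      rw [map_sub, ← a3 a c j ha hc hj, ← b3 a c j ha hc hj]
      unfold cfT subT
      rw [UB4_zip _ A B _ (by rw [a1]; exact hidx) (by rw [b1]; exact hidx), ZMod.natCast_mod]
      have hq : B.getD ((a * (k + 1) + c) * (l + 1) + j) 0 ≤ M := by
        rw [List.getD_eq_getElem _ _ (by rw [b1]; exact hidx)]
        exact (b2 _ (List.getElem_mem _)).le
      rw [Nat.cast_add, Nat.cast_sub hq, ZMod.natCast_self]
      ring

end Pool.Agent.helper50.BT
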